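import Pool.Agent.Helper41.Cluster4.Goals

/-! Case I is impossible (packet J, dimension four, of MP_c45da2_co). -/

namespace Pool.Agent.Helper77.Cluster4

open Module Pool.Agent.Helper65.Delone Pool.Agent.Helper41.Cluster4
open scoped RealInnerProductSpace

variable {E : Type*} [NormedAddCommGroup E] [InnerProductSpace ℝ E]

omit [InnerProductSpace ℝ E] in
/-- a contact point is within the covering radius -/
lemma con_le {C : Set E} {D R : ℝ} (hC : SepDense C D R) {q x : E} (hx : x ∈ Con C q) :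
    ‖q - x‖ ≤ R := by
  obtain ⟨z, hz, hzR⟩ := hC.dens q
  exact (hx.2 z hz).trans hzR

/-- two contact points are within twice the covering radius -/
lemma con_con_le {C : Set E} {D R : ℝ} (hC : SepDense C D R) {q x y : E} (hx : x ∈ Con C q)
    (hy : y ∈ Con C q) : ‖y - x‖ ≤ 2 * R := by
  have h : y - x = (q - x) - (q - y) := by abel
  rw [h]
  refine (norm_sub_le _ _).trans ?_
  have := con_le hC hx
  have := con_le hC hy
  linarith

/-- the orbit argument: the inner product with the displacement of a contact point is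
nonnegative -/
lemma inner_nonneg_aux {X : Set E} {D R W : ℝ}
    {Q : E → Submodule ℝ E} (hD : 0 < D) (hX : SepDense X D R)
    (hF : Fr X (2 * R) W Q) (hO : FiniteOrder E) (hA : Average E)
    {q c z0 z1 : E} (h0 : z0 ∈ Con X q) (h1 : z1 ∈ Con X q)
    (ha : ∀ v ∈ Q z1, ⟪v, z0 - c⟫ = 0) (hb : z1 - c ∈ Q z1) :
    0 ≤ ⟪q - c, z0 - c⟫ := by
  obtain ⟨A, hAS⟩ := hF.S_ne z1 h1.1
  have hiso := hAS.1
  obtain ⟨N, hN, hAN⟩ := hO X D R hD hX z1 h1.1 A hiso
  refine hA A N (Q z1) hN hAN (hF.S_fix z1 h1.1 A hAS) (z0 - c) (q - c) ha ?_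
  have hnorm : ∀ (k : ℕ) (v : E), ‖(A ^ k) v‖ = ‖v‖ := fun k v => LinearIsometryEquiv.norm_map _ _
  have hmem : ∀ k : ℕ, z1 + (A ^ k) (z0 - z1) ∈ X := by
    intro k
    induction k with
    | zero =>
      have : z1 + (A ^ 0) (z0 - z1) = z0 := by
        rw [pow_zero]
        change z1 + (z0 - z1) = z0
        abel
      rw [this]
      exact h0.1
    | succ k ih =>
      have h2 : ‖(A ^ k) (z0 - z1)‖ ≤ 2 * R := by
        rw [hnorm]
        exact con_con_le hX h1 h0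
      have h3 := (hiso _ h2).1 ih
      rw [pow_succ']
      exact h3
  have hfix : ∀ k : ℕ, (A ^ k) (z1 - c) = z1 - c := by
    intro k
    induction k with
    | zero => rfl
    | succ k ih =>
      rw [pow_succ']
      change A ((A ^ k) (z1 - c)) = z1 - c
      rw [ih]
      exact (hF.S_fix z1 h1.1 A hAS _).2 hb
  intro k
  have h4 : z1 + (A ^ k) (z0 - z1) = c + (A ^ k) (z0 - c) := by
    have h5 : z0 - z1 = (z0 - c) - (z1 - c) := by abel
    rw [h5, map_sub, hfix]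
    abel
  have h6 := h0.2 _ (hmem k)
  rw [h4] at h6
  have h7 : q - z0 = (q - c) - (z0 - c) := by abel
  have h8 : q - (c + (A ^ k) (z0 - c)) = (q - c) - (A ^ k) (z0 - c) := by abel
  rw [h7, h8] at h6
  have h9 := mul_self_le_mul_self (norm_nonneg _) h6
  rw [← sq, ← sq, norm_sub_sq_real (q - c) (z0 - c),
    norm_sub_sq_real (q - c) ((A ^ k) (z0 - c)), hnorm] at h9
  linarith

/-- a parallelogram bound -/
lemma norm_le_aux {m a b : E} {R : ℝ} (hR0 : 0 ≤ R) (ha : ‖m - a‖ ≤ R) (hb : ‖m - b‖ ≤ R)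
    (hab : ⟪a, b⟫ = 0) : ‖m‖ ≤ 2 * R := by
  have key : ‖m - a‖ ^ 2 + ‖m - b‖ ^ 2 = ‖m‖ ^ 2 + ‖m - (a + b)‖ ^ 2 := by
    rw [norm_sub_sq_real m a, norm_sub_sq_real m b, norm_sub_sq_real m (a + b),
      norm_add_sq_real a b, inner_add_right, hab]
    ring
  have h1 : ‖m‖ ^ 2 ≤ 2 * R ^ 2 := by
    nlinarith [sq_nonneg ‖m - (a + b)‖, norm_nonneg (m - a), norm_nonneg (m - b)]
  refine abs_le_of_sq_le_sq' ?_ (by linarith) |>.2
  nlinarith

/-- Case I is impossible. -/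
theorem caseI4 [FiniteDimensional ℝ E] (hf : FiniteNear E) (hM : LemM E) (_hI : StepI4 E)
    (hC : LemC4 E) (hO : FiniteOrder E) (hA : Average E) (h0 : CaseInit4 E) : CaseI4 E := by
  intro h4 X D R W Q hD hX hF hRW hXne
  obtain ⟨q₀, c, x, hx, y, hy, hxy, hcx, hcy, hcx', hcy'⟩ := h0 h4 X D R W Q hD hX hF hRW hXne
  have hUV : ∀ u ∈ Q x, ∀ w ∈ Q y, ⟪u, w⟫ = 0 := by
    intro u hu w hw
    rw [hxy] at hw
    exact (Submodule.mem_orthogonal _ _).1 hw u hu
  have hR0 : 0 ≤ R := (norm_nonneg _).trans (con_le hX hx)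
  -- the set of admissible centres
  set T : Submodule ℝ E → Set E := fun P => {z | z ∈ X ∧ Q z = P ∧ z - c ∈ P ∧ z ≠ c} with hT
  set G : Set E := {q | (∃ z0 ∈ T (Q x), z0 ∈ Con X q) ∧ ∃ z1 ∈ T (Q y), z1 ∈ Con X q} with hG
  have horth : ∀ z0 ∈ T (Q x), ∀ z1 ∈ T (Q y), ⟪z0 - c, z1 - c⟫ = 0 := fun z0 h0 z1 h1 =>
    hUV _ h0.2.2.1 _ h1.2.2.1
  -- bounds
  have hGb : ∀ q z0 z1 : E, z0 ∈ T (Q x) → z1 ∈ T (Q y) → z0 ∈ Con X q → z1 ∈ Con X q →
      ‖q - c‖ ≤ 2 * R := by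
    intro q z0 z1 h0 h1 hz0 hz1
    have ha := con_le hX hz0
    have hb := con_le hX hz1
    have hab := horth z0 h0 z1 h1
    have e0 : q - z0 = (q - c) - (z0 - c) := by abel
    have e1 : q - z1 = (q - c) - (z1 - c) := by abel
    rw [e0] at ha
    rw [e1] at hb
    exact norm_le_aux hR0 ha hb hab
  have hGcomp : IsCompact G := by
    have : ProperSpace E := FiniteDimensional.proper ℝ E
    refine Metric.isCompact_of_isClosed_isBounded ?_ ?_
    · have hfin : {z | z ∈ X ∧ ‖c - z‖ ≤ 3 * R}.Finite := hf X D hD hX.sep c (3 * R)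
      have hclosed : ∀ z : E, IsClosed {q | z ∈ X ∧ z ∈ Con X q} := by
        intro z
        have : {q | z ∈ X ∧ z ∈ Con X q} = {q | z ∈ X} ∩ ⋂ w ∈ X, {q | ‖q - z‖ ≤ ‖q - w‖} := by
          ext q
          simp only [Pool.Agent.Helper65.Delone.Con, Set.mem_ofPred_eq, Set.mem_inter_iff,
            Set.mem_iInter]
          tauto
        rw [this]
        refine IsClosed.inter isClosed_const (isClosed_biInter (fun w _ => ?_))
        exact isClosed_le (by fun_prop) (by fun_prop)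
      have hGeq : G = ⋃ z0 ∈ ({z | z ∈ X ∧ ‖c - z‖ ≤ 3 * R} ∩ T (Q x)),
          ⋃ z1 ∈ ({z | z ∈ X ∧ ‖c - z‖ ≤ 3 * R} ∩ T (Q y)),
          ({q | z0 ∈ X ∧ z0 ∈ Con X q} ∩ {q | z1 ∈ X ∧ z1 ∈ Con X q}) := by
        ext q
        simp only [Set.mem_iUnion, Set.mem_inter_iff, Set.mem_ofPred_eq, hG, exists_prop]
        constructor
        · rintro ⟨⟨z0, h0, hz0⟩, z1, h1, hz1⟩
          have hq := hGb q z0 z1 h0 h1 hz0 hz1
          have hb : ∀ z ∈ Con X q, ‖c - z‖ ≤ 3 * R := by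
            intro z hz
            have h5 := con_le hX hz
            have h6 : c - z = (q - z) - (q - c) := by abel
            rw [h6]
            refine (norm_sub_le _ _).trans ?_
            linarith
          exact ⟨z0, ⟨⟨hz0.1, hb z0 hz0⟩, h0⟩, z1, ⟨⟨hz1.1, hb z1 hz1⟩, h1⟩, ⟨hz0.1, hz0⟩,
            hz1.1, hz1⟩
        · rintro ⟨z0, ⟨-, h0⟩, z1, ⟨-, h1⟩, ⟨-, hz0⟩, -, hz1⟩
          exact ⟨⟨z0, h0, hz0⟩, z1, h1, hz1⟩
      rw [hGeq]
      refine Set.Finite.isClosed_biUnion (hfin.subset Set.inter_subset_left) (fun z0 _ => ?_)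
      refine Set.Finite.isClosed_biUnion (hfin.subset Set.inter_subset_left) (fun z1 _ => ?_)
      exact (hclosed z0).inter (hclosed z1)
    · refine (Metric.isBounded_closedBall (x := c) (r := 2 * R)).subset ?_
      rintro q ⟨⟨z0, h0, hz0⟩, z1, h1, hz1⟩
      rw [Metric.mem_closedBall, dist_eq_norm]
      exact hGb q z0 z1 h0 h1 hz0 hz1
  have hGne : G.Nonempty := by
    refine ⟨q₀, ⟨x, ⟨hx.1, rfl, ?_, hcx'.symm⟩, hx⟩, y, ⟨hy.1, rfl, ?_, hcy'.symm⟩, hy⟩
    · have := (Q x).neg_mem hcx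
      rwa [neg_sub] at this
    · have := (Q y).neg_mem hcy
      rwa [neg_sub] at this
  obtain ⟨q, hqG, hqmax⟩ := hGcomp.exists_isMaxOn hGne
    (f := fun q : E => ‖q - c‖) (by fun_prop)
  obtain ⟨⟨z0, hz0T, hz0⟩, z1, hz1T, hz1⟩ := hqG
  -- nonnegativity
  have hma : 0 ≤ ⟪q - c, z0 - c⟫ := by
    refine inner_nonneg_aux hD hX hF hO hA hz0 hz1 ?_ ?_
    · intro v hv
      rw [hz1T.2.1] at hv
      rw [real_inner_comm]
      exact hUV _ hz0T.2.2.1 _ hv
    · rw [hz1T.2.1]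
      exact hz1T.2.2.1
  have hmb : 0 ≤ ⟪q - c, z1 - c⟫ := by
    refine inner_nonneg_aux hD hX hF hO hA hz1 hz0 ?_ ?_
    · intro v hv
      rw [hz0T.2.1] at hv
      exact hUV _ hv _ hz1T.2.2.1
    · rw [hz0T.2.1]
      exact hz0T.2.2.1
  -- the finite contact set
  have hKfin : (Con X q).Finite := by
    refine (hf X D hD hX.sep q R).subset ?_
    intro z hz
    exact ⟨hz.1, con_le hX hz⟩
  obtain ⟨w0, hw0, hw0max⟩ := Set.exists_max_image (Con X q ∩ T (Q x))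
    (fun z => ⟪z - c, z0 - c⟫) (hKfin.subset Set.inter_subset_left) ⟨z0, hz0, hz0T⟩
  obtain ⟨w1, hw1, hw1max⟩ := Set.exists_max_image (Con X q ∩ T (Q y))
    (fun z => ⟪z - c, z1 - c⟫) (hKfin.subset Set.inter_subset_left) ⟨z1, hz1, hz1T⟩
  set a := z0 - c with ha
  set b := z1 - c with hb
  have ha0 : a ≠ 0 := sub_ne_zero.2 hz0T.2.2.2
  have hb0 : b ≠ 0 := sub_ne_zero.2 hz1T.2.2.2
  set M1 : ℝ := ⟪w0 - c, a⟫ with hM1
  set M2 : ℝ := ⟪w1 - c, b⟫ with hM2
  have hM1pos : 0 < M1 := by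
    have h1 := hw0max z0 ⟨hz0, hz0T⟩
    have h2 : 0 < ⟪a, a⟫ := real_inner_self_pos.2 ha0
    exact lt_of_lt_of_le h2 h1
  have hM2pos : 0 < M2 := by
    have h1 := hw1max z1 ⟨hz1, hz1T⟩
    have h2 : 0 < ⟪b, b⟫ := real_inner_self_pos.2 hb0
    exact lt_of_lt_of_le h2 h1
  have hab : ⟪a, b⟫ = 0 := horth z0 hz0T z1 hz1T
  set v : E := (1 / M1) • a + (1 / M2) • b with hv
  have hv_inner : ∀ u : E, ⟪u, v⟫ = ⟪u, a⟫ / M1 + ⟪u, b⟫ / M2 := by
    intro u
    rw [hv, inner_add_right, inner_smul_right, inner_smul_right]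
    ring
  have hv0 : v ≠ 0 := by
    intro h
    have h1 := hv_inner a
    rw [h, inner_zero_right, hab, zero_div, add_zero] at h1
    have h2 : 0 < ⟪a, a⟫ / M1 := div_pos (real_inner_self_pos.2 ha0) hM1pos
    linarith
  have hmv : 0 ≤ ⟪q - c, v⟫ := by
    rw [hv_inner]
    positivity
  have hw0v : ⟪w0 - c, v⟫ = 1 := by
    rw [hv_inner, horth w0 hw0.2 z1 hz1T, zero_div, add_zero, ← hM1, div_self hM1pos.ne']
  have hw1v : ⟪w1 - c, v⟫ = 1 := by
    have h1 : ⟪w1 - c, a⟫ = 0 := by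
      rw [real_inner_comm]
      exact horth z0 hz0T w1 hw1.2
    rw [hv_inner, h1, zero_div, zero_add, ← hM2, div_self hM2pos.ne']
  have hle : ∀ z ∈ Con X q, ⟪z - c, v⟫ ≤ 1 := by
    intro z hz
    by_cases hzc : z = c
    · rw [hzc, sub_self, inner_zero_left]
      exact zero_le_one
    · have hQ0 : Q z0 = Q x := hz0T.2.1
      have hQ1 : Q z1 = Q y := hz1T.2.1
      have hlt : ∀ u w : E, u ∈ Con X q → w ∈ Con X q →
          ‖w - u‖ ≤ 2 * R ∧ ‖w - u‖ < 15 / 2 * W := by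
        intro u w hu hw
        have := con_con_le hX hu hw
        exact ⟨this, lt_of_le_of_lt this hRW⟩
      have hcz0 : c - z0 ∈ Q z0 := by
        rw [hQ0]
        have := (Q x).neg_mem hz0T.2.2.1
        rwa [neg_sub] at this
      have hcz1 : c - z1 ∈ Q z1 := by
        rw [hQ1]
        have := (Q y).neg_mem hz1T.2.2.1
        rwa [neg_sub] at this
      have hUV' : Q z1 = (Q z0)ᗮ := by
        rw [hQ0, hQ1]
        exact hxy
      have h2 := hC h4 X (2 * R) W Q hF z0 hz0.1 z1 hz1.1 z hz.1 c hUV'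
        hcz0 hcz1 hzc (hlt z0 z hz0 hz).1 (hlt z0 z hz0 hz).2
        (hlt z1 z hz1 hz).1 (hlt z1 z hz1 hz).2
      rcases h2 with ⟨h3, h4⟩ | ⟨h3, h4⟩
      · have hzT : z ∈ T (Q x) := ⟨hz.1, h4.trans hQ0, hQ0 ▸ h3, hzc⟩
        have h5 := hw0max z ⟨hz, hzT⟩
        rw [hv_inner, horth z hzT z1 hz1T, zero_div, add_zero, div_le_one hM1pos]
        exact h5
      · have hzT : z ∈ T (Q y) := ⟨hz.1, h4.trans hQ1, hQ1 ▸ h3, hzc⟩
        have h5 := hw1max z ⟨hz, hzT⟩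
        have h6 : ⟪z - c, a⟫ = 0 := by
          rw [real_inner_comm]
          exact horth z0 hz0T z hzT
        rw [hv_inner, h6, zero_div, zero_add, div_le_one hM2pos]
        exact h5
  -- move the ball
  obtain ⟨s, hs, hs0, ⟨z, hz, hzpos⟩, hs1⟩ := hM X D R hD hX q w0 hw0.1 v hv0
  have hw01 : ⟪w1 - w0, v⟫ = 0 := by
    have : w1 - w0 = (w1 - c) - (w0 - c) := by abel
    rw [this, inner_sub_left, hw0v, hw1v, sub_self]
  have hw1' := hs1 w1 hw1.1 hw01
  rcases hs.eq_or_lt with hs' | hs'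
  · rw [← hs', zero_smul, add_zero] at hz
    have h1 := hle z hz
    have h2 : z - w0 = (z - c) - (w0 - c) := by abel
    rw [h2, inner_sub_left, hw0v] at hzpos
    linarith
  · have hq'G : q + s • v ∈ G := ⟨⟨w0, hw0.2, hs0⟩, w1, hw1.2, hw1'⟩
    have h1 : ‖q + s • v - c‖ ≤ ‖q - c‖ := hqmax hq'G
    have h2 : q + s • v - c = (q - c) + s • v := by abel
    have h3 := mul_self_le_mul_self (norm_nonneg _) h1
    rw [h2, ← sq, ← sq, norm_add_sq_real, inner_smul_right, norm_smul, mul_pow,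
      Real.norm_eq_abs, sq_abs] at h3
    have h4 : 0 < s ^ 2 * ‖v‖ ^ 2 := by
      have : 0 < ‖v‖ := norm_pos_iff.2 hv0
      positivity
    have h5 : 0 ≤ s * ⟪q - c, v⟫ := mul_nonneg hs hmv
    linarith

end Pool.Agent.Helper77.Cluster4
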